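import Mathlib
import Pool.Agent.H986S.Chr

set_option autoImplicit false

namespace Pool.Agent.Results.MP_e0aece_nt.CarmichaelCore

/-- `n` passes the strong test for the base `a`: writing `n - 1 = 2 ^ u * t` with `t` odd,
`a ^ t` is `1` modulo `n` or `a ^ (2 ^ i * t)` is `-1` modulo `n` for some `i < u`. -/
def Passes (n : ℕ) (a : ℤ) : Prop :=
  ∃ u t : ℕ, Odd t ∧ n - 1 = 2 ^ u * t ∧
    (a ^ t ≡ 1 [ZMOD n] ∨ ∃ i < u, a ^ (2 ^ i * t) ≡ -1 [ZMOD n])

/-- `a` is a witness for `n`: `n` does not divide `a` and `n` fails the strong test to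
base `a`. -/
def IsWitness (n : ℕ) (a : ℤ) : Prop := ¬ (n : ℤ) ∣ a ∧ ¬ Passes n a

/-- Carmichael numbers, in Korselt's form: squarefree composite `n` with `p - 1 ∣ n - 1` for
every prime `p ∣ n`. -/
def Carm (n : ℕ) : Prop :=
  1 < n ∧ ¬ n.Prime ∧ Squarefree n ∧ ∀ p : ℕ, p.Prime → p ∣ n → p - 1 ∣ n - 1

/-- The finite set `W` is reliable for `x`: every odd composite `n ≤ x` has a witness in `W`. -/
def Reliable (x : ℕ) (W : Finset ℤ) : Prop :=
  ∀ n : ℕ, n ≤ x → Odd n → 1 < n → ¬ n.Prime → ∃ a ∈ W, IsWitness n a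

/-- Every Carmichael number `n ≤ x` has a witness in the finite set `W`. -/
def RelC (x : ℕ) (W : Finset ℤ) : Prop :=
  ∀ n : ℕ, n ≤ x → Carm n → ∃ a ∈ W, IsWitness n a

/-- `R x`: the least number of elements of a reliable set for `x`. -/
noncomputable def R (x : ℕ) : ℕ := sInf {k : ℕ | ∃ W : Finset ℤ, Reliable x W ∧ W.card = k}

/-- `RC x`: the least number of elements of a set containing a witness for every Carmichael
number up to `x`. -/
noncomputable def RC (x : ℕ) : ℕ := sInf {k : ℕ | ∃ W : Finset ℤ, RelC x W ∧ W.card = k}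

/-- There are `w` maps `c i` from the primes to the integers with
`0 ≤ c i p ≤ v + 1`, where `2 ^ v` is the power of two exactly dividing `p - 1`, such that for
every Carmichael number `n ≤ x` one of the maps is not constant on the primes dividing `n`. -/
def Separates (x w : ℕ) : Prop :=
  ∃ c : Fin w → ℕ → ℕ, (∀ i p, p.Prime → c i p ≤ (p - 1).factorization 2 + 1) ∧
    ∀ n : ℕ, n ≤ x → Carm n →
      ∃ i, ∃ p q : ℕ, p.Prime ∧ q.Prime ∧ p ∣ n ∧ q ∣ n ∧ c i p ≠ c i q

/-- The primes can be coloured with `K` colours so that no Carmichael number up to `x` has all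
its prime factors of one colour. -/
def Colourable (x K : ℕ) : Prop :=
  ∃ c : ℕ → ℕ, (∀ p, c p < K) ∧ ∀ n : ℕ, n ≤ x → Carm n →
    ∃ p q : ℕ, p.Prime ∧ q.Prime ∧ p ∣ n ∧ q ∣ n ∧ c p ≠ c q

/-- `chi x`: the chromatic number of the hypergraph on the primes whose edges are the sets of
prime factors of the Carmichael numbers up to `x`. -/
noncomputable def chi (x : ℕ) : ℕ := sInf {K : ℕ | Colourable x K}

/-- The least size of a reliable set is governed by the Carmichael numbers alone: `R x` is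
`RC x` or `RC x + 1`, the number `RC x` is exactly the least `w` with `Separates x w`, and up to
a factor of order `log log x` both are the logarithm of the chromatic number `chi x`.
All four minima are attained. -/
theorem result (x : ℕ) :
    ((∃ W : Finset ℤ, Reliable x W ∧ W.card = R x) ∧ (∃ W : Finset ℤ, RelC x W ∧ W.card = RC x) ∧
      Separates x (RC x) ∧ Colourable x (chi x)) ∧
    (∀ w : ℕ, Separates x w → RC x ≤ w) ∧
    (RC x ≤ R x ∧ R x ≤ RC x + 1) ∧
    (chi x ≤ (Nat.log 2 x + 2) ^ RC x ∧ R x ≤ Nat.clog 3 (chi x) + 1) := by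
  obtain ⟨W0, -, hW0⟩ := Pool.Agent.H986S.reliable_discrete x
  have n1 : {k : ℕ | ∃ W : Finset ℤ, Reliable x W ∧ W.card = k}.Nonempty :=
    ⟨W0.card, W0, hW0, rfl⟩
  have n2 : {k : ℕ | ∃ W : Finset ℤ, RelC x W ∧ W.card = k}.Nonempty :=
    ⟨W0.card, W0, Pool.Agent.H986S.relC_of_reliable hW0, rfl⟩
  obtain ⟨W1, hW1, hc1⟩ := Nat.sInf_mem n1
  obtain ⟨W2, hW2, hc2⟩ := Nat.sInf_mem n2
  have hS : Separates x (RC x) := by
    have := Pool.Agent.H986S.digits_of_relC (x := x) (W := W2) hW2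
    rw [hc2] at this
    exact this
  have hCol : Colourable x ((Nat.log 2 x + 2) ^ RC x) :=
    Pool.Agent.H986S.colourable_of_digits (x := x) (w := RC x) hS
  have n3 : {K : ℕ | Colourable x K}.Nonempty := ⟨_, hCol⟩
  have hchi : Colourable x (chi x) := Nat.sInf_mem n3
  refine ⟨⟨⟨W1, hW1, hc1⟩, ⟨W2, hW2, hc2⟩, hS, hchi⟩, ?_, ⟨?_, ?_⟩, ?_, ?_⟩
  · intro w hw
    obtain ⟨W, hWc, hW⟩ := Pool.Agent.H986S.relC_of_digits (x := x) (w := w) hw
    exact (Nat.sInf_le (⟨W, hW, rfl⟩ : W.card ∈ {k : ℕ | ∃ W : Finset ℤ, RelC x W ∧ W.card = k})).trans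
      hWc
  · have h1 : RC x ≤ W1.card := Nat.sInf_le ⟨W1, Pool.Agent.H986S.relC_of_reliable hW1, rfl⟩
    rw [hc1] at h1
    exact h1
  · obtain ⟨W, hWc, hW⟩ := Pool.Agent.H986S.reliable_of_relC (x := x) (W := W2) hW2
    have h1 : R x ≤ W.card := Nat.sInf_le ⟨W, hW, rfl⟩
    rw [hc2] at hWc
    exact h1.trans hWc
  · exact Nat.sInf_le hCol
  · obtain ⟨W, hWc, hW⟩ := Pool.Agent.H986S.reliable_of_colourable (x := x) (K := chi x) hchi
    have h1 : R x ≤ W.card := Nat.sInf_le ⟨W, hW, rfl⟩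
    exact h1.trans hWc

end Pool.Agent.Results.MP_e0aece_nt.CarmichaelCore
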