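import Mathlib
import Pool.Agent.H986S.Asy

set_option autoImplicit false

namespace Pool.Agent.Results.MP_e0aece_nt.UpperBound

open Filter

/-- `n` passes the strong test for the base `a`: writing `n - 1 = 2 ^ u * t` with `t` odd,
`a ^ t` is `1` modulo `n` or `a ^ (2 ^ i * t)` is `-1` modulo `n` for some `i < u`. -/
def Passes (n : ℕ) (a : ℤ) : Prop :=
  ∃ u t : ℕ, Odd t ∧ n - 1 = 2 ^ u * t ∧
    (a ^ t ≡ 1 [ZMOD n] ∨ ∃ i < u, a ^ (2 ^ i * t) ≡ -1 [ZMOD n])

/-- `a` is a witness for `n`: `n` does not divide `a` and `n` fails the strong test to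
base `a`. -/
def IsWitness (n : ℕ) (a : ℤ) : Prop := ¬ (n : ℤ) ∣ a ∧ ¬ Passes n a

/-- The finite set `W` is reliable for `x`: every odd composite `n ≤ x` has a witness in `W`. -/
def Reliable (x : ℝ) (W : Finset ℤ) : Prop :=
  ∀ n : ℕ, (n : ℝ) ≤ x → Odd n → 1 < n → ¬ n.Prime → ∃ a ∈ W, IsWitness n a

/-- `R x`: the least number of elements of a reliable set for `x`. -/
noncomputable def R (x : ℝ) : ℕ := sInf {k : ℕ | ∃ W : Finset ℤ, Reliable x W ∧ W.card = k}

/-- For every `ε > 0` and all sufficiently large real `x` the least size `R x` of a reliable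
set for `x` is attained and is at most `(1 / (4 log 3) + ε) log x`. -/
theorem result : ∀ ε : ℝ, 0 < ε → ∀ᶠ x : ℝ in atTop,
    (∃ W : Finset ℤ, Reliable x W ∧ W.card = R x) ∧
      (R x : ℝ) ≤ (1 / (4 * Real.log 3) + ε) * Real.log x := by
  intro ε hε
  filter_upwards [Pool.Agent.H986S.upper ε hε] with x hx
  obtain ⟨W, hW1, hW2⟩ := hx
  have hW : Reliable x W := fun n h1 h2 h3 h4 => hW1 n h1 h2 h3 h4
  have hmem : W.card ∈ {k : ℕ | ∃ W : Finset ℤ, Reliable x W ∧ W.card = k} := ⟨W, hW, rfl⟩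
  refine ⟨Nat.sInf_mem ⟨W.card, hmem⟩, ?_⟩
  have h1 : R x ≤ W.card := Nat.sInf_le hmem
  have h2 : (R x : ℝ) ≤ W.card := by exact_mod_cast h1
  exact h2.trans hW2

end Pool.Agent.Results.MP_e0aece_nt.UpperBound
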